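import Mathlib
import Pool.Agent.Helper854_QC.D
import Pool.Agent.Helper854_Q3.B

/-! Integrals over half great circles. -/

set_option autoImplicit false

open MeasureTheory Set Filter Topology
open scoped ENNReal NNReal RealInnerProductSpace

namespace Pool.Agent.Helper854_S2

open Pool.Agent.Helper854_QC (NInt ord_ae)

variable {M μ : ℝ} {N : ℕ}

lemma nint_boundC {T : Set ℝ} {A B M : ℝ} {φ : ℝ → ℂ} (hT : NInt N T) (hAB : A ≤ B)
    (hTA : T ⊆ Icc A B) (hφ : IntegrableOn φ (Icc A B))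
    (hM : ∀ a b, A ≤ a → a ≤ b → b ≤ B → ‖∫ s in a..b, φ s‖ ≤ M) :
    ‖∫ s in T, φ s‖ ≤ N * M := by
  obtain ⟨I, hI, hd, rfl⟩ := hT
  have hs : ∀ i, I i ⊆ Icc A B := fun i => (subset_iUnion I i).trans hTA
  rw [integral_iUnion_fintype (fun i => (hI i).measurableSet) hd
    (fun i => hφ.mono_set (hs i))]
  refine (norm_sum_le _ _).trans ?_
  have : ∀ i ∈ Finset.univ, ‖∫ s in I i, φ s‖ ≤ M := by
    intro i _
    obtain ⟨a, b, h1, h2, h3, h4⟩ := ord_ae (hI i) hAB (hs i)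
    rw [setIntegral_congr_set h4, ← intervalIntegral.integral_of_le h2]
    exact hM a b h1 h2 h3
  refine (Finset.sum_le_sum this).trans ?_
  simp

/-- the kernel -/
noncomputable def w (μ θ : ℝ) : ℂ :=
  (Real.sin θ : ℂ) * Complex.exp (((-(μ * Real.cos θ) : ℝ) : ℂ) * Complex.I)

lemma w_cont (μ : ℝ) : Continuous (w μ) := by unfold w; fun_prop

lemma w_norm (μ θ : ℝ) : ‖w μ θ‖ ≤ 1 := by
  rw [w, norm_mul, Complex.norm_exp_ofReal_mul_I, mul_one, Complex.norm_real, Real.norm_eq_abs]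
  exact Real.abs_sin_le_one θ

lemma w_int (hμ : 0 < μ) (a b : ℝ) : ‖∫ θ in a..b, w μ θ‖ ≤ 2 / μ := by
  have hμ' : (μ : ℂ) ≠ 0 := by exact_mod_cast hμ.ne'
  have hd : ∀ θ : ℝ, HasDerivAt
      (fun θ : ℝ => Complex.exp (((-(μ * Real.cos θ) : ℝ) : ℂ) * Complex.I) / (μ * Complex.I))
      (w μ θ) θ := by
    intro θ
    have h1 : HasDerivAt (fun θ : ℝ => -(μ * Real.cos θ)) (μ * Real.sin θ) θ := by
      have e : (fun θ : ℝ => -(μ * Real.cos θ)) = fun θ => (-μ) * Real.cos θ := by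
        funext θ; ring
      rw [e]
      exact ((Real.hasDerivAt_cos θ).const_mul (-μ)).congr_deriv (by ring)
    have h2 := ((h1.ofReal_comp.mul_const Complex.I).cexp).div_const ((μ : ℂ) * Complex.I)
    refine h2.congr_deriv ?_
    have e2 : w μ θ = (Real.sin θ : ℂ) *
        Complex.exp (((-(μ * Real.cos θ) : ℝ) : ℂ) * Complex.I) := rfl
    rw [e2]
    push_cast
    field_simp
  have hn : ∀ θ : ℝ,
      ‖Complex.exp (((-(μ * Real.cos θ) : ℝ) : ℂ) * Complex.I) / (μ * Complex.I)‖ = 1 / μ := by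
    intro θ
    rw [norm_div, Complex.norm_exp_ofReal_mul_I, norm_mul, Complex.norm_I, mul_one,
      Complex.norm_real, Real.norm_eq_abs, abs_of_pos hμ]
  rw [intervalIntegral.integral_eq_sub_of_hasDerivAt (fun θ _ => hd θ)
    ((w_cont μ).intervalIntegrable _ _)]
  refine (norm_sub_le _ _).trans ?_
  rw [hn, hn]
  apply le_of_eq
  ring

lemma layer {P : ℝ → ℝ} (hP : Measurable P) (hP0 : ∀ θ, 0 ≤ P θ) (hPM : ∀ θ, P θ ≤ M)
    (hμ : 0 < μ) (hN : ∀ s, 0 < s → NInt N {θ | θ ∈ Ioo 0 Real.pi ∧ s < P θ}) :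
    ‖∫ θ in Ioo 0 Real.pi, (P θ : ℂ) * w μ θ‖ ≤ M * (N * (2 / μ)) := by
  have hM0 : 0 ≤ M := (hP0 0).trans (hPM 0)
  set F : ℝ → ℝ → ℂ := fun θ s => (Iio (P θ)).indicator (fun _ => w μ θ) s with hF
  have hFi : Function.uncurry F = {z : ℝ × ℝ | z.2 < P z.1}.indicator (fun z => w μ z.1) := by
    funext z
    simp only [hF, Function.uncurry]
    by_cases h : z.2 < P z.1
    · rw [indicator_of_mem (mem_Iio.2 h), indicator_of_mem (by exact h)]
    · rw [indicator_of_notMem (by simpa using h), indicator_of_notMem (by exact h)]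
  have hmeas : Measurable (Function.uncurry F) := by
    rw [hFi]
    exact ((w_cont μ).measurable.comp measurable_fst).indicator
      (measurableSet_lt measurable_snd (hP.comp measurable_fst))
  have hb : ∀ z, ‖Function.uncurry F z‖ ≤ 1 := by
    intro z
    rw [hFi]
    refine (norm_indicator_le_norm_self _ _).trans (w_norm _ _)
  have e1 : ∀ θ, (P θ : ℂ) * w μ θ = ∫ s in Ioc 0 M, F θ s := by
    intro θ
    simp only [hF]
    rw [integral_indicator measurableSet_Iio, Measure.restrict_restrict measurableSet_Iio,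
      setIntegral_const, measureReal_def]
    have : Iio (P θ) ∩ Ioc 0 M = Ioo 0 (P θ) := by
      ext s
      simp only [mem_inter_iff, mem_Iio, mem_Ioc, mem_Ioo]
      exact ⟨fun h => ⟨h.2.1, h.1⟩, fun h => ⟨h.2, h.1, h.2.le.trans (hPM θ)⟩⟩
    rw [this, Real.volume_Ioo, sub_zero, ENNReal.toReal_ofReal (hP0 θ)]
    rfl
  simp_rw [e1]
  rw [integral_integral_swap (Integrable.of_bound hmeas.aestronglyMeasurable 1
    (Eventually.of_forall hb))]
  have h2 : ∀ s ∈ Ioc 0 M, ‖∫ θ in Ioo 0 Real.pi, F θ s‖ ≤ N * (2 / μ) := by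
    intro s hs
    have hTm : MeasurableSet {θ | s < P θ} := measurableSet_lt measurable_const hP
    have e2 : (fun θ => F θ s) = {θ | s < P θ}.indicator (w μ) := by
      funext θ
      simp only [hF]
      by_cases h : s < P θ
      · rw [indicator_of_mem (mem_Iio.2 h), indicator_of_mem (by exact h)]
      · rw [indicator_of_notMem (by simpa using h), indicator_of_notMem (by exact h)]
    rw [e2, setIntegral_indicator hTm]
    refine nint_boundC (A := 0) (B := Real.pi) (hN s hs.1) Real.pi_pos.le ?_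
      (w_cont μ).continuousOn.integrableOn_Icc fun a b _ _ _ => w_int hμ a b
    exact fun θ hθ => Ioo_subset_Icc_self hθ.1
  refine (norm_setIntegral_le_of_norm_le_const (by rw [Real.volume_Ioc]; exact ENNReal.ofReal_lt_top)
    h2).trans ?_
  rw [measureReal_def, Real.volume_Ioc, sub_zero, ENNReal.toReal_ofReal hM0, mul_comm]

lemma meridian {G : ℝ → ℂ} (hG : Measurable G) (hM : ∀ θ, ‖G θ‖ ≤ M) (hμ : 0 < μ)
    (hN : ∀ (k : ℕ) (s : ℝ), 0 < s →
      NInt N {θ | θ ∈ Ioo 0 Real.pi ∧ s < (Complex.I ^ k * G θ).re}) :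
    ‖∫ θ in Ioo 0 Real.pi, w μ θ * G θ‖ ≤ 8 * (M * N / μ) := by
  set P : ℕ → ℝ → ℝ := fun k θ => max ((Complex.I ^ k * G θ).re) 0 with hP
  have hPm : ∀ k, Measurable (P k) := fun k =>
    (Complex.measurable_re.comp (hG.const_mul _)).max measurable_const
  have hP0 : ∀ k θ, 0 ≤ P k θ := fun k θ => le_max_right _ _
  have hM0 : 0 ≤ M := (norm_nonneg _).trans (hM 0)
  have hPM : ∀ k θ, P k θ ≤ M := by
    intro k θ
    refine max_le ?_ hM0
    refine (Complex.re_le_norm _).trans ?_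
    rw [norm_mul, norm_pow, Complex.norm_I, one_pow, one_mul]
    exact hM θ
  have hb : ∀ k, ‖∫ θ in Ioo 0 Real.pi, (P k θ : ℂ) * w μ θ‖ ≤ M * (N * (2 / μ)) := by
    intro k
    refine layer (hPm k) (hP0 k) (hPM k) hμ fun s hs => ?_
    have e : {θ | θ ∈ Ioo 0 Real.pi ∧ s < P k θ} =
        {θ | θ ∈ Ioo 0 Real.pi ∧ s < (Complex.I ^ k * G θ).re} := by
      ext θ
      simp only [hP, mem_ofPred_eq, lt_max_iff]
      constructor
      · rintro ⟨h1, h2 | h2⟩
        · exact ⟨h1, h2⟩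
        · linarith
      · rintro ⟨h1, h2⟩
        exact ⟨h1, Or.inl h2⟩
    rw [e]
    exact hN k s hs
  have hi : ∀ k, Integrable (fun θ => (P k θ : ℂ) * w μ θ) (volume.restrict (Ioo 0 Real.pi)) := by
    intro k
    have hfin : IsFiniteMeasure ((volume : Measure ℝ).restrict (Ioo 0 Real.pi)) :=
      ⟨by rw [Measure.restrict_apply_univ, Real.volume_Ioo]; exact ENNReal.ofReal_lt_top⟩
    refine Integrable.of_bound ?_ M (Eventually.of_forall fun θ => ?_)
    · exact ((Complex.measurable_ofReal.comp (hPm k)).mul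
        (w_cont μ).measurable).aestronglyMeasurable
    · rw [norm_mul, Complex.norm_real, Real.norm_eq_abs, abs_of_nonneg (hP0 k θ)]
      exact (mul_le_mul (hPM k θ) (w_norm μ θ) (norm_nonneg _) hM0).trans (mul_one M).le
  have key : ∀ a : ℝ, max a 0 - max (-a) 0 = a := fun a => by
    rcases le_total 0 a with h | h
    · rw [max_eq_left h, max_eq_right (by linarith)]; ring
    · rw [max_eq_right h, max_eq_left (by linarith)]; ring
  have hsum : ∀ θ, w μ θ * G θ = ((P 0 θ : ℂ) * w μ θ - (P 2 θ : ℂ) * w μ θ) +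
      ((P 3 θ : ℂ) * w μ θ - (P 1 θ : ℂ) * w μ θ) * Complex.I := by
    intro θ
    have h0 : (Complex.I ^ 0 * G θ).re = (G θ).re := by simp
    have h1 : (Complex.I ^ 1 * G θ).re = -(G θ).im := by simp
    have h2 : (Complex.I ^ 2 * G θ).re = -(G θ).re := by simp
    have h3 : (Complex.I ^ 3 * G θ).re = (G θ).im := by simp [Complex.I_pow_three]
    have hG' : G θ = (((P 0 θ : ℝ) : ℂ) - ((P 2 θ : ℝ) : ℂ)) +
        (((P 3 θ : ℝ) : ℂ) - ((P 1 θ : ℝ) : ℂ)) * Complex.I := by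
      simp only [hP]
      rw [h0, h1, h2, h3]
      apply Complex.ext
      · simp [key]
      · simp [key]
    conv_lhs => rw [hG']
    ring
  simp_rw [hsum]
  have i1 : Integrable (fun θ => (P 0 θ : ℂ) * w μ θ - (P 2 θ : ℂ) * w μ θ)
      (volume.restrict (Ioo 0 Real.pi)) := (hi 0).sub (hi 2)
  have i2 : Integrable (fun θ => ((P 3 θ : ℂ) * w μ θ - (P 1 θ : ℂ) * w μ θ) * Complex.I)
      (volume.restrict (Ioo 0 Real.pi)) := ((hi 3).sub (hi 1)).mul_const _
  rw [integral_add i1 i2, integral_mul_const, integral_sub (hi 0) (hi 2),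
    integral_sub (hi 3) (hi 1)]
  refine (norm_add_le _ _).trans ?_
  rw [norm_mul, Complex.norm_I, mul_one]
  have j1 := norm_sub_le (∫ θ in Ioo 0 Real.pi, (P 0 θ : ℂ) * w μ θ)
    (∫ θ in Ioo 0 Real.pi, (P 2 θ : ℂ) * w μ θ)
  have j2 := norm_sub_le (∫ θ in Ioo 0 Real.pi, (P 3 θ : ℂ) * w μ θ)
    (∫ θ in Ioo 0 Real.pi, (P 1 θ : ℂ) * w μ θ)
  have e : 8 * (M * N / μ) = 4 * (M * (N * (2 / μ))) := by ring
  rw [e]
  linarith [hb 0, hb 1, hb 2, hb 3]

end Pool.Agent.Helper854_S2
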