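import Mathlib
import Pool.Agent.Helper854_S2.A

/-! The Fourier transform of densities on the sphere of `ℝ³` through integrals over meridians. -/

set_option autoImplicit false

open MeasureTheory Set Filter Topology
open scoped ENNReal NNReal RealInnerProductSpace

namespace Pool.Agent.Helper854_S2

open Pool.Agent.Helper854_QC (NInt)
open Pool.Agent.Helper854_Q3 (E3 ceq3 ceq3_mp ceq3_apply exists_basis1 norm_sq_coord3)

variable {g : Metric.sphere (0 : E3) 1 → ℂ} {M : ℝ} {N : ℕ} {ξ : E3}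

/-- extension by zero -/
noncomputable def gx (g : Metric.sphere (0 : E3) 1 → ℂ) : E3 → ℂ :=
  Function.extend Subtype.val g 0

lemma gx_meas (hg : Measurable g) : Measurable (gx g) :=
  (MeasurableEmbedding.subtype_coe Metric.isClosed_sphere.measurableSet).measurable_extend hg
    measurable_zero

lemma gx_coe (x : Metric.sphere (0 : E3) 1) : gx g x = g x :=
  Subtype.val_injective.extend_apply _ _ _

lemma gx_norm (hM : ∀ x, ‖g x‖ ≤ M) (hM0 : 0 ≤ M) (x : E3) : ‖gx g x‖ ≤ M := by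
  by_cases h : ∃ a : Metric.sphere (0 : E3) 1, (a : E3) = x
  · obtain ⟨a, rfl⟩ := h
    rw [gx_coe]; exact hM a
  · rw [gx, Function.extend_apply' _ _ _ h]
    simpa using hM0

/-- the exponential -/
noncomputable def ek (ξ x : E3) : ℂ :=
  Complex.exp (((-(2 * Real.pi * ⟪x, ξ⟫) : ℝ) : ℂ) * Complex.I)

lemma ek_norm (ξ x : E3) : ‖ek ξ x‖ = 1 := Complex.norm_exp_ofReal_mul_I _

lemma ek_meas (ξ : E3) : Measurable (ek ξ) := by
  have : Continuous (ek ξ) := by unfold ek; fun_prop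
  exact this.measurable

/-- the Fourier transform of `g dσ` -/
noncomputable def ft (g : Metric.sphere (0 : E3) 1 → ℂ) (ξ : E3) : ℂ :=
  ∫ x : Metric.sphere (0 : E3) 1, ek ξ x * g x ∂((volume : Measure E3).toSphere)

/-- the homogeneous extension, cut off at the unit ball -/
noncomputable def ff (g : Metric.sphere (0 : E3) 1 → ℂ) (ξ : E3) : E3 → ℂ :=
  (Metric.ball (0 : E3) 1).indicator fun x => ek ξ (‖x‖⁻¹ • x) * gx g (‖x‖⁻¹ • x)

lemma ff_meas (hg : Measurable g) : Measurable (ff g ξ) := by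
  have h : Measurable fun x : E3 => ‖x‖⁻¹ • x := by fun_prop
  exact (((ek_meas ξ).comp h).mul ((gx_meas hg).comp h)).indicator Metric.isOpen_ball.measurableSet

lemma ff_norm (hM : ∀ x, ‖g x‖ ≤ M) (hM0 : 0 ≤ M) (x : E3) : ‖ff g ξ x‖ ≤ M := by
  refine (norm_indicator_le_norm_self _ _).trans ?_
  rw [norm_mul, ek_norm, one_mul]
  exact gx_norm hM hM0 _

lemma ff_zero {x : E3} (hx : 1 ≤ ‖x‖) : ff g ξ x = 0 := by
  rw [ff, indicator_of_notMem]
  rw [mem_ball_zero_iff]; exact not_lt.2 hx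

lemma ff_smul {ρ : ℝ} (hρ : 0 < ρ) (hρ1 : ρ < 1) {x : E3} (hx : ‖x‖ = 1) :
    ff g ξ (ρ • x) = ek ξ x * gx g x := by
  have h1 : ‖ρ • x‖ = ρ := by rw [norm_smul, hx, mul_one, Real.norm_eq_abs, abs_of_pos hρ]
  rw [ff, indicator_of_mem (by rw [mem_ball_zero_iff, h1]; exact hρ1), h1, smul_smul,
    inv_mul_cancel₀ hρ.ne', one_smul]

lemma lhs (g : Metric.sphere (0 : E3) 1 → ℂ) (ξ : E3) :
    ∫ x, ff g ξ x = ft g ξ * (1 / 3 : ℝ) := by
  have hmp := (volume : Measure E3).measurePreserving_homeomorphUnitSphereProd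
  set h : Metric.sphere (0 : E3) 1 × Ioi (0 : ℝ) → ℂ := fun p => (ek ξ p.1 * g p.1) *
    (Iio (⟨1, mem_Ioi.2 one_pos⟩ : Ioi (0 : ℝ))).indicator (fun _ => (1 : ℂ)) p.2 with hh
  have hgf : ∀ z : ({(0 : E3)}ᶜ : Set E3), h (homeomorphUnitSphereProd E3 z) = ff g ξ z := by
    intro z
    simp only [hh]
    have e1 : ((homeomorphUnitSphereProd E3 z).1 : E3) = ‖(z : E3)‖⁻¹ • (z : E3) := by
      rw [homeomorphUnitSphereProd_apply_fst_coe]
    have e2 : ((homeomorphUnitSphereProd E3 z).2 : ℝ) = ‖(z : E3)‖ := by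
      rw [homeomorphUnitSphereProd_apply_snd_coe]
    by_cases hz : ‖(z : E3)‖ < 1
    · rw [indicator_of_mem, ff, indicator_of_mem (by rwa [mem_ball_zero_iff]), mul_one,
        ← gx_coe (g := g) (homeomorphUnitSphereProd E3 z).1, e1]
      rw [mem_Iio, ← Subtype.coe_lt_coe, e2]; exact hz
    · rw [indicator_of_notMem, ff_zero (not_lt.1 hz), mul_zero]
      rw [mem_Iio, ← Subtype.coe_lt_coe, e2]; exact hz
  have e1 : ∫ z, ff g ξ z = ∫ p, h p ∂((volume : Measure E3).toSphere.prod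
      (.volumeIoiPow (Module.finrank ℝ E3 - 1))) := by
    rw [← hmp.integral_comp (Homeomorph.measurableEmbedding _) h,
      integral_congr_ae (Eventually.of_forall hgf),
      integral_subtype_comap (measurableSet_singleton _).compl fun z => ff g ξ z,
      restrict_compl_singleton]
  rw [e1]
  simp only [hh]
  rw [integral_prod_mul (f := fun x : Metric.sphere (0 : E3) 1 => ek ξ x * g x)
    (g := (Iio (⟨1, mem_Ioi.2 one_pos⟩ : Ioi (0 : ℝ))).indicator (fun _ => (1 : ℂ))), ft]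
  congr 1
  rw [integral_indicator measurableSet_Iio, setIntegral_const, measureReal_def,
    Measure.volumeIoiPow_apply_Iio]
  simp only [finrank_euclideanSpace, Fintype.card_fin]
  norm_num

lemma int_bdd {α : Type*} [MeasurableSpace α] {ν : Measure α} {F : α → ℂ} {S : Set α} {C : ℝ}
    (hF : Measurable F) (hS : MeasurableSet S) (hν : ν S ≠ ⊤) (hC : ∀ x, ‖F x‖ ≤ C)
    (h0 : ∀ x, x ∉ S → F x = 0) : Integrable F ν := by
  have e : F = S.indicator F := by
    funext x
    by_cases h : x ∈ S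
    · rw [indicator_of_mem h]
    · rw [indicator_of_notMem h, h0 x h]
  rw [e, integrable_indicator_iff hS]
  exact Measure.integrableOn_of_bounded hν hF.aestronglyMeasurable (Eventually.of_forall hC)

/-- the integral over a half plane -/
lemma half_plane (hg : Measurable g) (hM : ∀ x, ‖g x‖ ≤ M) {b : OrthonormalBasis (Fin 3) ℝ E3}
    (hb : ξ = ‖ξ‖ • b 0) (hξ : 0 < ‖ξ‖) {v : E3} (hv : ‖v‖ = 1) (hbv : ⟪b 0, v⟫ = 0)
    (hN : ∀ (k : ℕ) (s : ℝ), 0 < s → NInt N {θ | θ ∈ Ioo 0 Real.pi ∧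
      s < (Complex.I ^ k * gx g (Real.cos θ • b 0 + Real.sin θ • v)).re}) :
    ‖∫ q : ℝ × ℝ, {q : ℝ × ℝ | 0 < q.2}.indicator
      (fun q => (q.2 : ℂ) * ff g ξ (q.1 • b 0 + q.2 • v)) q‖ ≤
      8 * (M * N / (2 * Real.pi * ‖ξ‖)) := by
  have hpi := Real.pi_pos
  have hM0 : 0 ≤ M := (norm_nonneg _).trans (hM ⟨b 0, by simp⟩)
  have hbb : ⟪b 0, b 0⟫ = (1 : ℝ) := by rw [real_inner_self_eq_norm_sq, b.norm_eq_one]; norm_num
  have hvv : ⟪v, v⟫ = (1 : ℝ) := by rw [real_inner_self_eq_norm_sq, hv]; norm_num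
  have hnorm : ∀ s t : ℝ, ‖s • b 0 + t • v‖ ^ 2 = s ^ 2 + t ^ 2 := by
    intro s t
    rw [← real_inner_self_eq_norm_sq, inner_add_left, inner_add_right, inner_add_right,
      real_inner_smul_left, real_inner_smul_left, real_inner_smul_right, real_inner_smul_right,
      real_inner_smul_left, real_inner_smul_left, real_inner_smul_right, real_inner_smul_right,
      real_inner_comm (b 0) v, hbv, hbb, hvv]
    ring
  have hcs : ∀ θ : ℝ, ‖Real.cos θ • b 0 + Real.sin θ • v‖ = 1 := by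
    intro θ
    have h := hnorm (Real.cos θ) (Real.sin θ)
    rw [Real.cos_sq_add_sin_sq] at h
    exact (pow_eq_one_iff_of_nonneg (norm_nonneg _) two_ne_zero).1 h
  have hek : ∀ θ : ℝ, ek ξ (Real.cos θ • b 0 + Real.sin θ • v) =
      Complex.exp (((-(2 * Real.pi * ‖ξ‖ * Real.cos θ) : ℝ) : ℂ) * Complex.I) := by
    intro θ
    have h1 : ⟪Real.cos θ • b 0 + Real.sin θ • v, ξ⟫ = ‖ξ‖ * Real.cos θ := by
      rw [hb, real_inner_smul_right, inner_add_left, real_inner_smul_left, real_inner_smul_left,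
        hbb, real_inner_comm (b 0) v, hbv]
      rw [norm_smul, norm_norm, b.norm_eq_one]
      ring
    rw [ek, h1]
    congr 3
    ring
  set H : ℝ × ℝ → ℂ := {q : ℝ × ℝ | 0 < q.2}.indicator
      (fun q => (q.2 : ℂ) * ff g ξ (q.1 • b 0 + q.2 • v)) with hH
  have hHm : Measurable H := by
    refine Measurable.indicator ?_ (measurableSet_lt measurable_const measurable_snd)
    exact (Complex.measurable_ofReal.comp measurable_snd).mul ((ff_meas hg).comp (by fun_prop))
  set J : ℂ := ∫ θ in Ioo 0 Real.pi, w (2 * Real.pi * ‖ξ‖) θ *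
    gx g (Real.cos θ • b 0 + Real.sin θ • v) with hJ
  have hJb : ‖J‖ ≤ 8 * (M * N / (2 * Real.pi * ‖ξ‖)) :=
    meridian ((gx_meas hg).comp (by fun_prop)) (fun θ => gx_norm hM hM0 _) (by positivity) hN
  have hpol : ∀ ρ θ : ℝ, 0 < ρ → θ ∈ Ioo (-Real.pi) Real.pi →
      (ρ : ℝ) • H (ρ * Real.cos θ, ρ * Real.sin θ) = (Iio (1 : ℝ)).indicator (fun _ => (1 : ℂ)) ρ *
        (((ρ ^ 2 : ℝ) : ℂ) * (Ioo 0 Real.pi).indicator (fun θ => w (2 * Real.pi * ‖ξ‖) θ *
    gx g (Real.cos θ • b 0 + Real.sin θ • v)) θ) := by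
    intro ρ θ hρ hθ
    have e1 : (ρ * Real.cos θ) • b 0 + (ρ * Real.sin θ) • v =
        ρ • (Real.cos θ • b 0 + Real.sin θ • v) := by
      rw [smul_add, smul_smul, smul_smul]
    by_cases h1 : ρ < 1
    · rw [indicator_of_mem (mem_Iio.2 h1), one_mul]
      by_cases h2 : 0 < θ
      · have h3 : 0 < Real.sin θ := Real.sin_pos_of_pos_of_lt_pi h2 hθ.2
        rw [indicator_of_mem (show θ ∈ Ioo 0 Real.pi from ⟨h2, hθ.2⟩)]
        simp only [hH]
        rw [indicator_of_mem (by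
          rw [mem_ofPred_eq]
          positivity)]
        simp only
        rw [e1, ff_smul hρ h1 (hcs θ), hek, w, Complex.real_smul]
        push_cast
        ring
      · rw [indicator_of_notMem (show θ ∉ Ioo 0 Real.pi from fun h => h2 h.1), mul_zero]
        simp only [hH]
        rw [indicator_of_notMem, smul_zero]
        rw [mem_ofPred_eq, not_lt]
        have h3 : Real.sin θ ≤ 0 := Real.sin_nonpos_of_nonpos_of_neg_pi_le (not_lt.1 h2) hθ.1.le
        exact mul_nonpos_of_nonneg_of_nonpos hρ.le h3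
    · rw [indicator_of_notMem (show ρ ∉ Iio (1 : ℝ) from h1), zero_mul]
      simp only [hH]
      by_cases h2 : (ρ * Real.cos θ, ρ * Real.sin θ) ∈ {q : ℝ × ℝ | 0 < q.2}
      · rw [indicator_of_mem h2]
        simp only
        rw [e1, ff_zero, mul_zero, smul_zero]
        rw [norm_smul, hcs, mul_one, Real.norm_eq_abs, abs_of_pos hρ]
        exact not_lt.1 h1
      · rw [indicator_of_notMem h2, smul_zero]
  have hint : Integrable (fun p : ℝ × ℝ => p.1 • H (polarCoord.symm p))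
      ((volume.restrict (Ioi (0 : ℝ))).prod (volume.restrict (Ioo (-Real.pi) Real.pi))) := by
    have hF : Integrable (fun p : ℝ × ℝ => (Iio (1 : ℝ)).indicator (fun _ => (1 : ℂ)) p.1 *
        (((p.1 ^ 2 : ℝ) : ℂ) * (Ioo 0 Real.pi).indicator (fun θ => w (2 * Real.pi * ‖ξ‖) θ *
        gx g (Real.cos θ • b 0 + Real.sin θ • v)) p.2))
        ((volume.restrict (Ioo (0 : ℝ) 1)).prod (volume.restrict (Ioo (-Real.pi) Real.pi))) := by
      have i1 : IsFiniteMeasure ((volume : Measure ℝ).restrict (Ioo 0 1)) :=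
        ⟨by rw [Measure.restrict_apply_univ, Real.volume_Ioo]; exact ENNReal.ofReal_lt_top⟩
      have i2 : IsFiniteMeasure ((volume : Measure ℝ).restrict (Ioo (-Real.pi) Real.pi)) :=
        ⟨by rw [Measure.restrict_apply_univ, Real.volume_Ioo]; exact ENNReal.ofReal_lt_top⟩
      have ia : Integrable (fun ρ : ℝ => (Iio (1 : ℝ)).indicator (fun _ => (1 : ℂ)) ρ *
          ((ρ ^ 2 : ℝ) : ℂ)) (volume.restrict (Ioo (0 : ℝ) 1)) := by
        refine Integrable.of_bound ?_ 1 ?_
        · exact ((measurable_const.indicator measurableSet_Iio).mul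
            (Complex.measurable_ofReal.comp (by fun_prop))).aestronglyMeasurable
        · refine (ae_restrict_iff' measurableSet_Ioo).2 (Eventually.of_forall fun ρ hρ => ?_)
          rw [indicator_of_mem (mem_Iio.2 hρ.2), one_mul, Complex.norm_real, Real.norm_eq_abs,
            abs_of_nonneg (by positivity)]
          exact pow_le_one₀ hρ.1.le hρ.2.le
      have ib : Integrable ((Ioo 0 Real.pi).indicator (fun θ => w (2 * Real.pi * ‖ξ‖) θ *
          gx g (Real.cos θ • b 0 + Real.sin θ • v))) (volume.restrict (Ioo (-Real.pi) Real.pi)) := by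
        refine Integrable.of_bound ?_ M (Eventually.of_forall fun θ => ?_)
        · exact (((w_cont _).measurable.mul ((gx_meas hg).comp (by fun_prop))).indicator
            measurableSet_Ioo).aestronglyMeasurable
        · refine (norm_indicator_le_norm_self _ _).trans ?_
          rw [norm_mul]
          exact (mul_le_mul (w_norm _ θ) (gx_norm hM hM0 _) (norm_nonneg _) zero_le_one).trans
            (one_mul M).le
      refine (ia.mul_prod ib).congr (Eventually.of_forall fun p => ?_)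
      simp only
      ring
    have hm : Measurable fun p : ℝ × ℝ => p.1 • H (polarCoord.symm p) :=
      measurable_fst.smul (hHm.comp continuous_polarCoord_symm.measurable)
    refine ⟨hm.aestronglyMeasurable, ?_⟩
    have h1 : ∫⁻ p, ‖p.1 • H (polarCoord.symm p)‖ₑ
        ∂((volume.restrict (Ioi (0 : ℝ))).prod (volume.restrict (Ioo (-Real.pi) Real.pi))) ≤
        ∫⁻ p, ‖(Iio (1 : ℝ)).indicator (fun _ => (1 : ℂ)) p.1 *
        (((p.1 ^ 2 : ℝ) : ℂ) * (Ioo 0 Real.pi).indicator (fun θ => w (2 * Real.pi * ‖ξ‖) θ *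
        gx g (Real.cos θ • b 0 + Real.sin θ • v)) p.2)‖ₑ
        ∂((volume.restrict (Ioo (0 : ℝ) 1)).prod (volume.restrict (Ioo (-Real.pi) Real.pi))) := by
      rw [Measure.prod_restrict, Measure.prod_restrict]
      rw [← lintegral_indicator (measurableSet_Ioi.prod measurableSet_Ioo),
        ← lintegral_indicator (measurableSet_Ioo.prod measurableSet_Ioo)]
      refine lintegral_mono fun p => ?_
      by_cases hp : p ∈ Ioi (0 : ℝ) ×ˢ Ioo (-Real.pi) Real.pi
      · rw [indicator_of_mem hp]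
        have h2 : p.1 • H (polarCoord.symm p) = _ := hpol p.1 p.2 hp.1 hp.2
        rw [h2]
        by_cases h3 : p.1 < 1
        · rw [indicator_of_mem (show p ∈ Ioo (0 : ℝ) 1 ×ˢ Ioo (-Real.pi) Real.pi from
            ⟨⟨hp.1, h3⟩, hp.2⟩)]
        · rw [indicator_of_notMem (show p.1 ∉ Iio (1 : ℝ) from h3)]
          simp
      · rw [indicator_of_notMem hp]; exact zero_le
    exact h1.trans_lt hF.2
  have e1 : polarCoord.target = Ioi (0 : ℝ) ×ˢ Ioo (-Real.pi) Real.pi := rfl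
  rw [← integral_comp_polarCoord_symm, e1, Measure.volume_eq_prod, ← Measure.prod_restrict,
    integral_prod _ hint]
  have e2 : ∀ ρ ∈ Ioi (0 : ℝ), ∫ θ in Ioo (-Real.pi) Real.pi,
      (ρ, θ).1 • H (polarCoord.symm (ρ, θ)) =
      (Iio (1 : ℝ)).indicator (fun _ => (1 : ℂ)) ρ * (((ρ ^ 2 : ℝ) : ℂ) * J) := by
    intro ρ hρ
    have h5 : ∫ θ in Ioo (-Real.pi) Real.pi, (ρ, θ).1 • H (polarCoord.symm (ρ, θ)) =
        ∫ θ in Ioo (-Real.pi) Real.pi, (Iio (1 : ℝ)).indicator (fun _ => (1 : ℂ)) ρ *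
        (((ρ ^ 2 : ℝ) : ℂ) * (Ioo 0 Real.pi).indicator (fun θ => w (2 * Real.pi * ‖ξ‖) θ *
        gx g (Real.cos θ • b 0 + Real.sin θ • v)) θ) :=
      setIntegral_congr_fun measurableSet_Ioo fun θ hθ => hpol ρ θ hρ hθ
    rw [h5, integral_const_mul, integral_const_mul, integral_indicator measurableSet_Ioo,
      Measure.restrict_restrict measurableSet_Ioo]
    congr 3
    have : Ioo 0 Real.pi ∩ Ioo (-Real.pi) Real.pi = Ioo 0 Real.pi :=
      inter_eq_left.2 (Ioo_subset_Ioo (by linarith) le_rfl)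
    rw [this]
  rw [setIntegral_congr_fun measurableSet_Ioi e2]
  have e3 : ∫ ρ in Ioi (0 : ℝ), (Iio (1 : ℝ)).indicator (fun _ => (1 : ℂ)) ρ *
      (((ρ ^ 2 : ℝ) : ℂ) * J) = ∫ ρ in Ioo (0 : ℝ) 1, ((ρ ^ 2 : ℝ) : ℂ) * J := by
    rw [← integral_indicator measurableSet_Ioi, ← integral_indicator measurableSet_Ioo]
    refine integral_congr_ae (Eventually.of_forall fun ρ => ?_)
    by_cases h0 : 0 < ρ
    · by_cases h1 : ρ < 1
      · rw [indicator_of_mem (mem_Ioi.2 h0), indicator_of_mem (mem_Iio.2 h1), one_mul,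
          indicator_of_mem (show ρ ∈ Ioo (0 : ℝ) 1 from ⟨h0, h1⟩)]
      · rw [indicator_of_mem (mem_Ioi.2 h0), indicator_of_notMem (show ρ ∉ Iio (1 : ℝ) from h1),
          zero_mul, indicator_of_notMem (show ρ ∉ Ioo (0 : ℝ) 1 from fun h => h1 h.2)]
    · rw [indicator_of_notMem (show ρ ∉ Ioi (0 : ℝ) from h0),
        indicator_of_notMem (show ρ ∉ Ioo (0 : ℝ) 1 from fun h => h0 h.1)]
  rw [e3]
  refine (norm_setIntegral_le_of_norm_le_const (C := 8 * (M * N / (2 * Real.pi * ‖ξ‖)))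
    (by rw [Real.volume_Ioo]; exact ENNReal.ofReal_lt_top) fun ρ hρ => ?_).trans ?_
  · rw [norm_mul, Complex.norm_real, Real.norm_eq_abs, abs_of_nonneg (by positivity)]
    calc ρ ^ 2 * ‖J‖ ≤ 1 * ‖J‖ := by
          gcongr
          exact pow_le_one₀ hρ.1.le hρ.2.le
      _ ≤ _ := by rw [one_mul]; exact hJb
  · rw [measureReal_def, Real.volume_Ioo]
    norm_num

end Pool.Agent.Helper854_S2
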