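import Mathlib
import Pool.Agent.Helper854_S2.B

/-! The decay of the Fourier transform of tame densities on the sphere of `ℝ³`. -/

set_option autoImplicit false

open MeasureTheory Set Filter Topology
open scoped ENNReal NNReal RealInnerProductSpace

namespace Pool.Agent.Helper854_S2

open Pool.Agent.Helper854_QC (NInt)
open Pool.Agent.Helper854_Q3 (E3 ceq3 ceq3_mp ceq3_apply exists_basis1 norm_sq_coord3)

variable {g : Metric.sphere (0 : E3) 1 → ℂ} {M : ℝ} {N : ℕ} {ξ : E3}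

/-- the unit vectors orthogonal to `b 0` -/
noncomputable def vv (b : OrthonormalBasis (Fin 3) ℝ E3) (φ : ℝ) : E3 :=
  Real.cos φ • b 1 + Real.sin φ • b 2

lemma vv_perp (b : OrthonormalBasis (Fin 3) ℝ E3) (φ : ℝ) : ⟪b 0, vv b φ⟫ = 0 := by
  rw [vv, inner_add_right, real_inner_smul_right, real_inner_smul_right,
    b.inner_eq_zero (by decide), b.inner_eq_zero (by decide)]
  ring

lemma vv_norm (b : OrthonormalBasis (Fin 3) ℝ E3) (φ : ℝ) : ‖vv b φ‖ = 1 := by
  have h := norm_sq_coord3 b (vv b φ)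
  have i1 : ⟪b 1, vv b φ⟫ = Real.cos φ := by
    rw [vv, inner_add_right, real_inner_smul_right, real_inner_smul_right,
      real_inner_self_eq_norm_sq, b.norm_eq_one, b.inner_eq_zero (by decide)]
    ring
  have i2 : ⟪b 2, vv b φ⟫ = Real.sin φ := by
    rw [vv, inner_add_right, real_inner_smul_right, real_inner_smul_right,
      real_inner_self_eq_norm_sq, b.norm_eq_one, b.inner_eq_zero (by decide)]
    ring
  rw [vv_perp, i1, i2] at h
  have h2 : ‖vv b φ‖ ^ 2 = 1 := by rw [h, ← Real.cos_sq_add_sin_sq φ]; ring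
  exact (pow_eq_one_iff_of_nonneg (norm_nonneg _) two_ne_zero).1 h2

lemma cyl_eq (b : OrthonormalBasis (Fin 3) ℝ E3) (z r φ : ℝ) :
    z • b 0 + (r * Real.cos φ) • b 1 + (r * Real.sin φ) • b 2 = z • b 0 + r • vv b φ := by
  rw [vv, smul_add, smul_smul, smul_smul, add_assoc]

lemma sq_norm (b : OrthonormalBasis (Fin 3) ℝ E3) (z r φ : ℝ) :
    ‖z • b 0 + r • vv b φ‖ ^ 2 = z ^ 2 + r ^ 2 := by
  have hbb : ⟪b 0, b 0⟫ = (1 : ℝ) := by rw [real_inner_self_eq_norm_sq, b.norm_eq_one]; norm_num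
  have hvv : ⟪vv b φ, vv b φ⟫ = (1 : ℝ) := by rw [real_inner_self_eq_norm_sq, vv_norm]; norm_num
  rw [← real_inner_self_eq_norm_sq, inner_add_left, inner_add_right, inner_add_right,
    real_inner_smul_left, real_inner_smul_left, real_inner_smul_right, real_inner_smul_right,
    real_inner_smul_left, real_inner_smul_left, real_inner_smul_right, real_inner_smul_right,
    real_inner_comm (b 0) (vv b φ), vv_perp, hbb, hvv]
  ring

/-- the integrand in cylindrical coordinates -/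
noncomputable def cyl (b : OrthonormalBasis (Fin 3) ℝ E3)
    (g : Metric.sphere (0 : E3) 1 → ℂ) (ξ : E3) (z r φ : ℝ) : ℂ :=
  (r : ℂ) * ff g ξ (z • b 0 + r • vv b φ)

lemma cyl_zero (b : OrthonormalBasis (Fin 3) ℝ E3) {z r φ : ℝ} (h : 1 ≤ |z| ∨ 1 ≤ |r|) :
    cyl b g ξ z r φ = 0 := by
  have h1 : 1 ≤ ‖z • b 0 + r • vv b φ‖ := by
    have h2 := sq_norm b z r φ
    have h3 : (1 : ℝ) ^ 2 ≤ ‖z • b 0 + r • vv b φ‖ ^ 2 := by
      rw [h2]
      rcases h with h | h
      · have : (1 : ℝ) ^ 2 ≤ |z| ^ 2 := pow_le_pow_left₀ zero_le_one h 2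
        rw [sq_abs] at this
        nlinarith [sq_nonneg r]
      · have : (1 : ℝ) ^ 2 ≤ |r| ^ 2 := pow_le_pow_left₀ zero_le_one h 2
        rw [sq_abs] at this
        nlinarith [sq_nonneg z]
    exact abs_le_of_sq_le_sq' h3 (norm_nonneg _) |>.2
  rw [cyl, ff_zero h1, mul_zero]

lemma cyl_norm (hM : ∀ x, ‖g x‖ ≤ M) (hM0 : 0 ≤ M) (b : OrthonormalBasis (Fin 3) ℝ E3)
    (z r φ : ℝ) : ‖cyl b g ξ z r φ‖ ≤ M := by
  rcases le_or_gt 1 |r| with h | h
  · rw [cyl_zero b (Or.inr h), norm_zero]; exact hM0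
  · rw [cyl, norm_mul, Complex.norm_real, Real.norm_eq_abs]
    calc |r| * ‖ff g ξ (z • b 0 + r • vv b φ)‖ ≤ 1 * M :=
          mul_le_mul h.le (ff_norm hM hM0 _) (norm_nonneg _) zero_le_one
      _ = M := one_mul M

lemma cyl_meas (hg : Measurable g) (b : OrthonormalBasis (Fin 3) ℝ E3) :
    Measurable fun p : ℝ × (ℝ × ℝ) => cyl b g ξ p.1 p.2.1 p.2.2 := by
  unfold cyl
  refine (Complex.measurable_ofReal.comp (by fun_prop)).mul ((ff_meas hg).comp ?_)
  unfold vv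
  fun_prop

theorem cyl_int (hg : Measurable g) (hM : ∀ x, ‖g x‖ ≤ M) (b : OrthonormalBasis (Fin 3) ℝ E3) :
    ∫ x, ff g ξ x = ∫ φ in Ioo (-Real.pi) Real.pi, ∫ q : ℝ × ℝ, {q : ℝ × ℝ | 0 < q.2}.indicator
      (fun q => (q.2 : ℂ) * ff g ξ (q.1 • b 0 + q.2 • vv b φ)) q := by
  have hM0 : 0 ≤ M := (norm_nonneg _).trans (hM ⟨b 0, by simp⟩)
  -- coordinates
  set fc : ℝ × (ℝ × ℝ) → ℂ := fun p => ff g ξ (p.1 • b 0 + p.2.1 • b 1 + p.2.2 • b 2) with hfc
  have hfcm : Measurable fc := (ff_meas hg).comp (by fun_prop)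
  have e1 : ∫ x, ff g ξ x = ∫ p, fc p := by
    rw [← (ceq3_mp b).integral_comp' fc]
    refine integral_congr_ae (Eventually.of_forall fun x => ?_)
    simp only [hfc, ceq3_apply]
    have h := b.sum_repr' x
    rw [Fin.sum_univ_three] at h
    rw [h]
  have hfi : Integrable fc := by
    refine int_bdd (S := Icc (-1) 1 ×ˢ (Icc (-1) 1 ×ˢ Icc (-1) 1)) (C := M) hfcm
      (measurableSet_Icc.prod (measurableSet_Icc.prod measurableSet_Icc)) ?_
      (fun p => ff_norm hM hM0 _) ?_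
    · rw [Measure.volume_eq_prod, Measure.prod_prod, Measure.volume_eq_prod, Measure.prod_prod,
        Real.volume_Icc]
      exact ENNReal.mul_ne_top ENNReal.ofReal_ne_top
        (ENNReal.mul_ne_top ENNReal.ofReal_ne_top ENNReal.ofReal_ne_top)
    · intro p hp
      simp only [hfc]
      apply ff_zero
      by_contra hlt
      rw [not_le] at hlt
      apply hp
      have h := norm_sq_coord3 b (p.1 • b 0 + p.2.1 • b 1 + p.2.2 • b 2)
      have h01 : ⟪b 0, b 1⟫ = (0 : ℝ) := b.inner_eq_zero (by decide)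
      have h10 : ⟪b 1, b 0⟫ = (0 : ℝ) := b.inner_eq_zero (by decide)
      have h02 : ⟪b 0, b 2⟫ = (0 : ℝ) := b.inner_eq_zero (by decide)
      have h20 : ⟪b 2, b 0⟫ = (0 : ℝ) := b.inner_eq_zero (by decide)
      have h12 : ⟪b 1, b 2⟫ = (0 : ℝ) := b.inner_eq_zero (by decide)
      have h21 : ⟪b 2, b 1⟫ = (0 : ℝ) := b.inner_eq_zero (by decide)
      have h00 : ⟪b 0, b 0⟫ = (1 : ℝ) := by
        rw [real_inner_self_eq_norm_sq, b.norm_eq_one]; norm_num
      have h11 : ⟪b 1, b 1⟫ = (1 : ℝ) := by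
        rw [real_inner_self_eq_norm_sq, b.norm_eq_one]; norm_num
      have h22 : ⟪b 2, b 2⟫ = (1 : ℝ) := by
        rw [real_inner_self_eq_norm_sq, b.norm_eq_one]; norm_num
      simp only [inner_add_right, real_inner_smul_right, h00, h01, h02, h10, h11, h12, h20, h21,
        h22, mul_one, mul_zero, add_zero, zero_add] at h
      have h3 : ‖p.1 • b 0 + p.2.1 • b 1 + p.2.2 • b 2‖ ^ 2 ≤ 1 :=
        pow_le_one₀ (norm_nonneg _) hlt.le
      rw [h] at h3
      refine ⟨abs_le.1 ?_, abs_le.1 ?_, abs_le.1 ?_⟩ <;>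
        refine abs_le_of_sq_le_sq ?_ zero_le_one <;>
        nlinarith [sq_nonneg p.1, sq_nonneg p.2.1, sq_nonneg p.2.2]
  -- polar coordinates in the plane orthogonal to `b 0`
  have e2 : ∫ p, fc p = ∫ z : ℝ, ∫ q : ℝ × ℝ, cyl b g ξ z q.1 q.2
      ∂((volume.restrict (Ioi (0 : ℝ))).prod (volume.restrict (Ioo (-Real.pi) Real.pi))) := by
    rw [Measure.volume_eq_prod, integral_prod _ (by rw [← Measure.volume_eq_prod]; exact hfi)]
    refine integral_congr_ae (Eventually.of_forall fun z => ?_)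
    simp only
    rw [← integral_comp_polarCoord_symm, Measure.prod_restrict, ← Measure.volume_eq_prod]
    refine integral_congr_ae (Eventually.of_forall fun q => ?_)
    simp only [polarCoord_symm_apply, hfc]
    rw [cyl_eq, cyl, Complex.real_smul]
  have hi3 : Integrable (fun p : ℝ × (ℝ × ℝ) => cyl b g ξ p.1 p.2.1 p.2.2)
      ((volume : Measure ℝ).prod
      ((volume.restrict (Ioi (0 : ℝ))).prod (volume.restrict (Ioo (-Real.pi) Real.pi)))) := by
    refine int_bdd (S := Icc (-1) 1 ×ˢ (Icc (-1) 1 ×ˢ univ)) (C := M) (cyl_meas hg b)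
      (measurableSet_Icc.prod (measurableSet_Icc.prod MeasurableSet.univ)) ?_
      (fun p => cyl_norm hM hM0 b _ _ _) ?_
    · rw [Measure.prod_prod, Measure.prod_prod, Real.volume_Icc, Measure.restrict_apply_univ,
        Real.volume_Ioo]
      refine ENNReal.mul_ne_top ENNReal.ofReal_ne_top (ENNReal.mul_ne_top ?_
        ENNReal.ofReal_ne_top)
      refine ne_top_of_le_ne_top (b := volume (Icc (-1 : ℝ) 1)) ?_ (Measure.restrict_apply_le _ _)
      rw [Real.volume_Icc]; exact ENNReal.ofReal_ne_top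
    · intro p hp
      apply cyl_zero
      by_contra hcon
      rw [not_or, not_le, not_le] at hcon
      exact hp ⟨abs_le.1 hcon.1.le, abs_le.1 hcon.2.le, mem_univ _⟩
  have e3 : ∫ z : ℝ, ∫ q : ℝ × ℝ, cyl b g ξ z q.1 q.2
      ∂((volume.restrict (Ioi (0 : ℝ))).prod (volume.restrict (Ioo (-Real.pi) Real.pi))) =
      ∫ p : (ℝ × ℝ) × ℝ, cyl b g ξ p.1.1 p.1.2 p.2
      ∂(((volume : Measure ℝ).prod (volume.restrict (Ioi (0 : ℝ)))).prod
        (volume.restrict (Ioo (-Real.pi) Real.pi))) := by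
    rw [← integral_prod (fun p : ℝ × (ℝ × ℝ) => cyl b g ξ p.1 p.2.1 p.2.2) hi3]
    have mp := measurePreserving_prodAssoc (volume : Measure ℝ) (volume.restrict (Ioi (0 : ℝ)))
      (volume.restrict (Ioo (-Real.pi) Real.pi))
    rw [← mp.integral_comp' (fun p : ℝ × (ℝ × ℝ) => cyl b g ξ p.1 p.2.1 p.2.2)]
    rfl
  have hi4 : Integrable (fun p : (ℝ × ℝ) × ℝ => cyl b g ξ p.1.1 p.1.2 p.2)
      (((volume : Measure ℝ).prod (volume.restrict (Ioi (0 : ℝ)))).prod
        (volume.restrict (Ioo (-Real.pi) Real.pi))) := by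
    have mp := measurePreserving_prodAssoc (volume : Measure ℝ) (volume.restrict (Ioi (0 : ℝ)))
      (volume.restrict (Ioo (-Real.pi) Real.pi))
    exact (mp.integrable_comp_emb MeasurableEquiv.prodAssoc.measurableEmbedding).2 hi3
  rw [e1, e2, e3, integral_prod_symm _ hi4]
  refine integral_congr_ae (Eventually.of_forall fun φ => ?_)
  simp only
  have hS : MeasurableSet {q : ℝ × ℝ | 0 < q.2} := measurableSet_lt measurable_const measurable_snd
  rw [integral_indicator hS]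
  have e5 : (volume : Measure ℝ).prod (volume.restrict (Ioi (0 : ℝ))) =
      (volume : Measure (ℝ × ℝ)).restrict {q : ℝ × ℝ | 0 < q.2} := by
    have h1 : {q : ℝ × ℝ | 0 < q.2} = univ ×ˢ Ioi (0 : ℝ) := by
      ext q; simp
    rw [h1, Measure.volume_eq_prod, ← Measure.prod_restrict, Measure.restrict_univ]
  rw [e5]
  rfl

/-- tame densities -/
def TameG (N : ℕ) (g : Metric.sphere (0 : E3) 1 → ℂ) : Prop :=
  ∀ (k : ℕ) (s : ℝ), 0 < s → ∀ e v : E3, ‖e‖ = 1 → ‖v‖ = 1 → ⟪e, v⟫ = 0 →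
    NInt N {θ | θ ∈ Ioo 0 Real.pi ∧
      ∃ x : Metric.sphere (0 : E3) 1, (x : E3) = Real.cos θ • e + Real.sin θ • v ∧
        s < (Complex.I ^ k * g x).re}

theorem decay (hg : Measurable g) (hM : ∀ x, ‖g x‖ ≤ M) (hN : TameG N g) :
    ‖ft g ξ‖ * ‖ξ‖ ≤ 24 * (M * N) := by
  have hpi := Real.pi_pos
  have hM0 : 0 ≤ M := (norm_nonneg _).trans (hM ⟨EuclideanSpace.single 0 1, by simp⟩)
  rcases (norm_nonneg ξ).eq_or_lt with h0 | hξ
  · rw [← h0, mul_zero]; positivity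
  obtain ⟨b, hb0⟩ := exists_basis1 (e := ‖ξ‖⁻¹ • ξ) (by
    rw [norm_smul, norm_inv, norm_norm, inv_mul_cancel₀ hξ.ne'])
  have hb : ξ = ‖ξ‖ • b 0 := by rw [hb0, smul_smul, mul_inv_cancel₀ hξ.ne', one_smul]
  have hK : ∀ φ, ‖∫ q : ℝ × ℝ, {q : ℝ × ℝ | 0 < q.2}.indicator
      (fun q => (q.2 : ℂ) * ff g ξ (q.1 • b 0 + q.2 • vv b φ)) q‖ ≤
      8 * (M * N / (2 * Real.pi * ‖ξ‖)) := by
    intro φ
    refine half_plane hg hM hb hξ (vv_norm b φ) (vv_perp b φ) fun k s hs => ?_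
    have h1 := hN k s hs (b 0) (vv b φ) (b.norm_eq_one 0) (vv_norm b φ) (vv_perp b φ)
    have e : {θ | θ ∈ Ioo 0 Real.pi ∧
        s < (Complex.I ^ k * gx g (Real.cos θ • b 0 + Real.sin θ • vv b φ)).re} =
        {θ | θ ∈ Ioo 0 Real.pi ∧ ∃ x : Metric.sphere (0 : E3) 1,
          (x : E3) = Real.cos θ • b 0 + Real.sin θ • vv b φ ∧ s < (Complex.I ^ k * g x).re} := by
      ext θ
      simp only [mem_ofPred_eq]
      refine and_congr_right fun _ => ⟨fun h => ?_, ?_⟩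
      · have hx : Real.cos θ • b 0 + Real.sin θ • vv b φ ∈ Metric.sphere (0 : E3) 1 := by
          rw [mem_sphere_zero_iff_norm]
          have h2 := sq_norm b (Real.cos θ) (Real.sin θ) φ
          rw [Real.cos_sq_add_sin_sq] at h2
          exact (pow_eq_one_iff_of_nonneg (norm_nonneg _) two_ne_zero).1 h2
        refine ⟨⟨_, hx⟩, rfl, ?_⟩
        rw [← gx_coe (g := g) ⟨_, hx⟩]
        exact h
      · rintro ⟨x, hx, hs'⟩
        rw [← hx, gx_coe]; exact hs'
    rw [e]; exact h1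
  have h1 : ‖∫ x, ff g ξ x‖ ≤ 8 * (M * N / (2 * Real.pi * ‖ξ‖)) * (2 * Real.pi) := by
    rw [cyl_int hg hM b]
    refine (norm_setIntegral_le_of_norm_le_const (C := 8 * (M * N / (2 * Real.pi * ‖ξ‖)))
      (by rw [Real.volume_Ioo]; exact ENNReal.ofReal_lt_top) fun φ _ => hK φ).trans ?_
    rw [measureReal_def, Real.volume_Ioo, ENNReal.toReal_ofReal (by linarith)]
    apply le_of_eq; ring
  rw [lhs, norm_mul, Complex.norm_real, Real.norm_eq_abs, abs_of_pos (by norm_num)] at h1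
  have h2 : 8 * (M * N / (2 * Real.pi * ‖ξ‖)) * (2 * Real.pi) * ‖ξ‖ = 8 * (M * N) := by
    field_simp
  have h3 := mul_le_mul_of_nonneg_right h1 hξ.le
  rw [h2] at h3
  linarith

end Pool.Agent.Helper854_S2
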