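import Mathlib
import Pool.Agent.Helper854_S2.C

/-! The `L^p` bounds. -/

set_option autoImplicit false

open MeasureTheory Set Filter Topology
open scoped ENNReal NNReal RealInnerProductSpace

namespace Pool.Agent.Helper854_S2

open Pool.Agent.Helper854_QC (NInt)
open Pool.Agent.Helper854_Q3 (E3)

variable {g : Metric.sphere (0 : E3) 1 → ℂ} {M : ℝ} {N : ℕ} {ξ : E3}

/-- the total mass of the sphere -/
noncomputable def cS : ℝ := (volume : Measure E3).toSphere.real univ

lemma cS_nonneg : 0 ≤ cS := measureReal_nonneg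

lemma ft_trivial (hM : ∀ x, ‖g x‖ ≤ M) (ξ : E3) : ‖ft g ξ‖ ≤ M * cS := by
  unfold ft cS
  refine norm_integral_le_of_norm_le_const (Eventually.of_forall fun x => ?_)
  rw [norm_mul, ek_norm, one_mul]
  exact hM x

lemma ft_bound (hg : Measurable g) (hM : ∀ x, ‖g x‖ ≤ M) (hN : TameG N g) (ξ : E3) :
    ‖ft g ξ‖ ≤ (M * (cS + 24 * N)) * ‖(1 + ‖ξ‖)⁻¹‖ := by
  have h1 := ft_trivial hM ξ
  have h2 := decay (ξ := ξ) hg hM hN
  have h0 : 0 < 1 + ‖ξ‖ := by positivity
  rw [Real.norm_eq_abs, abs_of_pos (by positivity), ← div_eq_mul_inv, le_div_iff₀ h0]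
  nlinarith
lemma ek_meas2 : Measurable fun z : E3 × E3 => ek z.1 z.2 := by
  have h1 : Continuous fun z : E3 × E3 => ek z.1 z.2 := by unfold ek; fun_prop
  exact h1.measurable

lemma ft_meas (hg : Measurable g) : Measurable (ft g) := by
  have h3 : Measurable fun z : E3 × Metric.sphere (0 : E3) 1 => ((z.1, (z.2 : E3)) : E3 × E3) :=
    measurable_fst.prodMk (measurable_subtype_coe.comp measurable_snd)
  have h4 : Measurable fun z : E3 × Metric.sphere (0 : E3) 1 => ek z.1 (z.2 : E3) := by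
    have := ek_meas2.comp h3
    exact this
  have h5 : Measurable fun z : E3 × Metric.sphere (0 : E3) 1 => g z.2 := hg.comp measurable_snd
  have h6 : StronglyMeasurable fun ξ : E3 => ∫ x : Metric.sphere (0 : E3) 1, ek ξ x * g x
      ∂((volume : Measure E3).toSphere) := by
    refine StronglyMeasurable.integral_prod_right' (ν := (volume : Measure E3).toSphere)
      (f := fun z : E3 × Metric.sphere (0 : E3) 1 => ek z.1 (z.2 : E3) * g z.2) ?_
    have h7 : Measurable fun z : E3 × Metric.sphere (0 : E3) 1 => ek z.1 (z.2 : E3) * g z.2 := Measurable.mul h4 h5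
    exact h7.stronglyMeasurable
  exact h6.measurable
lemma weight_memLp {p : ℝ} (hp : 3 < p) :
    MemLp (fun ξ : E3 => (1 + ‖ξ‖)⁻¹) (ENNReal.ofReal p) volume := by
  have hp0 : 0 < p := by linarith
  have hm : Measurable fun ξ : E3 => (1 + ‖ξ‖)⁻¹ := (measurable_const.add measurable_norm).inv
  refine ⟨hm.aestronglyMeasurable, ?_⟩
  rw [eLpNorm_lt_top_iff_lintegral_rpow_enorm_lt_top (by simpa using hp0) ENNReal.ofReal_ne_top,
    ENNReal.toReal_ofReal hp0.le]
  have h : ∫⁻ ξ : E3, ENNReal.ofReal ((1 + ‖ξ‖) ^ (-p)) < ⊤ :=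
    finite_integral_one_add_norm (by simpa using hp)
  refine lt_of_le_of_lt (le_of_eq ?_) h
  refine lintegral_congr fun ξ => ?_
  rw [Real.enorm_eq_ofReal (by positivity), ENNReal.ofReal_rpow_of_nonneg (by positivity) hp0.le]
  congr 1
  rw [Real.rpow_neg (by positivity), Real.inv_rpow (by positivity)]
theorem lp {p : ℝ} (hp : 3 < p) (N : ℕ) : ∃ C : ℝ, 0 ≤ C ∧
    ∀ (g : Metric.sphere (0 : E3) 1 → ℂ) (M : ℝ), Measurable g → (∀ x, ‖g x‖ ≤ M) → TameG N g →
      MemLp (ft g) (ENNReal.ofReal p) volume ∧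
        eLpNorm (ft g) (ENNReal.ofReal p) volume ≤ ENNReal.ofReal (C * M) := by
  have hw := weight_memLp hp
  have hG := cS_nonneg
  refine ⟨(cS + 24 * N) * (eLpNorm (fun ξ : E3 => (1 + ‖ξ‖)⁻¹) (ENNReal.ofReal p) volume).toReal,
    by positivity, fun g M hg hM hN => ?_⟩
  have hM0 : 0 ≤ M := (norm_nonneg _).trans (hM ⟨EuclideanSpace.single 0 1, by simp⟩)
  have hb := ft_bound hg hM hN
  refine ⟨hw.of_le_mul (ft_meas hg).aestronglyMeasurable (Eventually.of_forall hb), ?_⟩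
  refine (eLpNorm_le_mul_eLpNorm_of_ae_le_mul (Eventually.of_forall hb) _).trans (le_of_eq ?_)
  have e : eLpNorm (fun ξ : E3 => (1 + ‖ξ‖)⁻¹) (ENNReal.ofReal p) volume =
      ENNReal.ofReal (eLpNorm (fun ξ : E3 => (1 + ‖ξ‖)⁻¹) (ENNReal.ofReal p) volume).toReal :=
    (ENNReal.ofReal_toReal hw.2.ne).symm
  rw [e, ← ENNReal.ofReal_mul (by positivity), ENNReal.toReal_ofReal ENNReal.toReal_nonneg]
  congr 1
  ring

end Pool.Agent.Helper854_S2
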