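import Mathlib
import Pool.Agent.Helper854_S2.D
import Pool.Agent.Y61.MB.M3
import Pool.Agent.Y61.MB.M8

/-! Higher dimensions: densities which depend on two coordinates. -/

set_option autoImplicit false

open MeasureTheory Set Filter Topology
open scoped ENNReal NNReal RealInnerProductSpace

namespace Pool.Agent.Helper854_S2

open Pool.Agent.Helper854_QC (NInt)
open Pool.Agent.Helper854_Q3 (E3)

/-- functions on the unit disc whose superlevel sets meet the half ellipses in few arcs -/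
def TameD (N : ℕ) (F : EuclideanSpace ℝ (Fin 2) → ℂ) : Prop :=
  ∀ (k : ℕ) (s : ℝ), 0 < s → ∀ a c : EuclideanSpace ℝ (Fin 2),
    (∀ θ : ℝ, ‖Real.cos θ • a + Real.sin θ • c‖ ≤ 1) →
    NInt N {θ | θ ∈ Ioo 0 Real.pi ∧ s < (Complex.I ^ k * F (Real.cos θ • a + Real.sin θ • c)).re}

lemma ft_conv {g : Metric.sphere (0 : E3) 1 → ℂ} : Pool.Agent.Y61.MB.ft g = ft g := by
  funext ξ
  unfold Pool.Agent.Y61.MB.ft ft ek Pool.Agent.Y61.MB.sigma
  refine integral_congr_ae (Eventually.of_forall fun x => ?_)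
  simp only
  congr 2
  push_cast
  ring

lemma co_lin {n m : ℕ} (v : Fin m → EuclideanSpace ℝ (Fin n)) (α β : ℝ)
    (x y : EuclideanSpace ℝ (Fin n)) : Pool.Agent.Y61.MB.co v (α • x + β • y) =
      α • Pool.Agent.Y61.MB.co v x + β • Pool.Agent.Y61.MB.co v y := by
  ext i
  simp [Pool.Agent.Y61.MB.co, inner_add_right, real_inner_smul_right]

lemma tame_disc {N : ℕ} {F : EuclideanSpace ℝ (Fin 2) → ℂ} (hN : TameD N F)
    (u : Fin 2 → E3) (hu : Orthonormal ℝ u) :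
    TameG N fun x : Metric.sphere (0 : E3) 1 => F (Pool.Agent.Y61.MB.co u x) := by
  intro k s hs e v he hv hev
  have hx : ∀ θ : ℝ, ‖Real.cos θ • e + Real.sin θ • v‖ = 1 := by
    intro θ
    have h : ‖Real.cos θ • e + Real.sin θ • v‖ ^ 2 = 1 := by
      rw [← real_inner_self_eq_norm_sq, inner_add_left, inner_add_right, inner_add_right,
        real_inner_smul_left, real_inner_smul_left, real_inner_smul_right, real_inner_smul_right,
        real_inner_smul_left, real_inner_smul_left, real_inner_smul_right, real_inner_smul_right,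
        real_inner_comm e v, hev, real_inner_self_eq_norm_sq, real_inner_self_eq_norm_sq, he, hv]
      linear_combination Real.cos_sq_add_sin_sq θ
    exact (pow_eq_one_iff_of_nonneg (norm_nonneg _) two_ne_zero).1 h
  have h1 := hN k s hs (Pool.Agent.Y61.MB.co u e) (Pool.Agent.Y61.MB.co u v) (fun θ => by
    rw [← co_lin]
    exact (Pool.Agent.Y61.MB.co_norm u hu _).trans (hx θ).le)
  have e1 : {θ | θ ∈ Ioo 0 Real.pi ∧ s < (Complex.I ^ k *
      F (Real.cos θ • Pool.Agent.Y61.MB.co u e + Real.sin θ • Pool.Agent.Y61.MB.co u v)).re} =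
      {θ | θ ∈ Ioo 0 Real.pi ∧ ∃ x : Metric.sphere (0 : E3) 1,
      (x : E3) = Real.cos θ • e + Real.sin θ • v ∧
        s < (Complex.I ^ k * F (Pool.Agent.Y61.MB.co u x)).re} := by
    ext θ
    simp only [mem_ofPred_eq]
    refine and_congr_right fun _ => ⟨fun h => ?_, ?_⟩
    · refine ⟨⟨_, by rw [mem_sphere_zero_iff_norm]; exact hx θ⟩, rfl, ?_⟩
      simp only
      rw [co_lin]; exact h
    · rintro ⟨x, hx', hs'⟩
      rw [hx', co_lin] at hs'
      exact hs'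
  rw [← e1]; exact h1

theorem all_dim {n : ℕ} (hn : 3 ≤ n) {q : ℝ} (hq : 2 * (n : ℝ) / ((n : ℝ) - 1) < q) (N : ℕ) :
    ∃ C : ℝ, 0 ≤ C ∧ ∀ (F : EuclideanSpace ℝ (Fin 2) → ℂ) (M : ℝ), Measurable F →
      (∀ y, ‖y‖ ≤ 1 → ‖F y‖ ≤ M) → TameD N F →
      ∀ v : Fin 2 → EuclideanSpace ℝ (Fin n), Orthonormal ℝ v →
      MemLp (Pool.Agent.Y61.MB.ft fun x : Metric.sphere (0 : EuclideanSpace ℝ (Fin n)) 1 =>
        F (Pool.Agent.Y61.MB.co v x)) (ENNReal.ofReal q) ∧
      eLpNorm (Pool.Agent.Y61.MB.ft fun x : Metric.sphere (0 : EuclideanSpace ℝ (Fin n)) 1 =>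
        F (Pool.Agent.Y61.MB.co v x)) (ENNReal.ofReal q) ≤ ENNReal.ofReal (C * M) := by
  have three : ∀ {p : ℝ}, 3 < p → ∃ C : ℝ, 0 ≤ C ∧
      ∀ (F : EuclideanSpace ℝ (Fin 2) → ℂ) (M : ℝ), Measurable F →
      (∀ y, ‖y‖ ≤ 1 → ‖F y‖ ≤ M) → TameD N F → ∀ v : Fin 2 → E3, Orthonormal ℝ v →
      MemLp (Pool.Agent.Y61.MB.ft fun x : Metric.sphere (0 : E3) 1 =>
        F (Pool.Agent.Y61.MB.co v x)) (ENNReal.ofReal p) ∧
      eLpNorm (Pool.Agent.Y61.MB.ft fun x : Metric.sphere (0 : E3) 1 =>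
        F (Pool.Agent.Y61.MB.co v x)) (ENNReal.ofReal p) ≤ ENNReal.ofReal (C * M) := by
    intro p hp
    obtain ⟨C, hC, h⟩ := lp hp N
    refine ⟨C, hC, fun F M hF hM hN v hv => ?_⟩
    have h2 := h (fun x : Metric.sphere (0 : E3) 1 => F (Pool.Agent.Y61.MB.co v x)) M
      (hF.comp ((Pool.Agent.Y61.MB.co_meas' v).comp measurable_subtype_coe))
      (fun x => hM _ ((Pool.Agent.Y61.MB.co_norm v hv _).trans (by simp)))
      (tame_disc hN v hv)
    rw [ft_conv]
    exact h2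
  rcases hn.eq_or_lt with h3 | h4
  · subst h3
    exact three (by norm_num at hq; exact hq)
  have hn' : (4 : ℝ) ≤ n := by exact_mod_cast h4
  have hnm : ((n - 2 : ℕ) : ℝ) = (n : ℝ) - 2 := by
    rw [Nat.cast_sub (by omega)]
    norm_num
  have h1 : 1 < (q - 2) * ((((n - 2 : ℕ) : ℝ) - 1) / 2 + 1) := by
    rw [div_lt_iff₀ (by linarith)] at hq
    rw [hnm]
    nlinarith
  obtain ⟨P, hP, hPm, hPq⟩ := Pool.Agent.Y61.MB.exists_P' (n - 2) (by omega) 1 q one_pos h1
  rw [hnm] at hPq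
  obtain ⟨C, hC, hT⟩ := Pool.Agent.Y61.MB.transfer_ft n 2 (by norm_num) (by omega) P q hP (by
    push_cast
    exact hPq)
  obtain ⟨C', hC', h'⟩ := three (p := P) (by linarith)
  have hf2 : ∃ u : Fin 2 → E3, Orthonormal ℝ u := by
    obtain ⟨b, -⟩ := Pool.Agent.Helper854_Q3.exists_basis1
      (e := (EuclideanSpace.single 0 1 : E3)) (by simp)
    exact ⟨fun i => b (Fin.castSucc i), b.orthonormal.comp _ (Fin.castSucc_injective 2)⟩
  obtain ⟨u, hu⟩ := hf2
  refine ⟨C * (1 + C'), by positivity, fun F M hF hM hN v hv => ?_⟩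
  have hM0 : 0 ≤ M := (norm_nonneg _).trans (hM 0 (by simp))
  have h2 := hT F hF M (C' * M) (by positivity) hM u v hu hv (h' F M hF hM hN u hu).2
  refine ⟨h2.1, h2.2.trans (le_of_eq ?_)⟩
  congr 1
  ring

end Pool.Agent.Helper854_S2
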